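import Mathlib
import Pool.Agent.T9h24.Fu.Fin
import Pool.Agent.T9h31.Fu.BdU

/-!
FV: base point free linear systems.
-/

set_option autoImplicit false
set_option linter.unusedSectionVars false

open Finset MvPolynomial NumberField IsDedekindDomain Module

namespace Pool.Agent.T9h24.Fv

open Pool.Agent.T9h24 Pool.Agent.T9h24.Ft Pool.Agent.T9h24.Fu
open Pool.Agent.T9h31.Ft (good span_good le_good exists_coord eval_smul_hom)

/-! ### The profile -/

section profile

/-- the Legendre transform of the sum of the codimensions, for the dimensions `D` -/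
noncomputable def pfl (K : ℕ) (D : ℕ → ℕ) (M : ℕ) (u : ℝ) : ℝ :=
  ⨆ θ : Fin (K + 1), ((θ : ℕ) * u - ∑ t ∈ Finset.range θ, (1 - (D (t + 1) : ℝ) / M))

variable {K M : ℕ} {D : ℕ → ℕ}

theorem pfl_bdd (u : ℝ) : BddAbove (Set.range fun θ : Fin (K + 1) => ((θ : ℕ) * u -
    ∑ t ∈ Finset.range θ, (1 - (D (t + 1) : ℝ) / M))) := (Set.finite_range _).bddAbove

theorem pfl_zero (hD : ∀ t, D t ≤ M) : pfl K D M 0 = 0 := by
  refine le_antisymm (ciSup_le fun θ => ?_) ?_
  · rw [mul_zero, zero_sub, neg_nonpos]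
    refine Finset.sum_nonneg fun t _ => ?_
    rw [sub_nonneg]
    exact div_le_one_of_le₀ (by exact_mod_cast hD (t + 1)) (Nat.cast_nonneg _)
  · have h1 := le_ciSup (pfl_bdd (K := K) (D := D) (M := M) 0) 0
    refine le_trans (le_of_eq ?_) h1
    simp

theorem pfl_mono {u v : ℝ} (h : u ≤ v) : pfl K D M u ≤ pfl K D M v := by
  refine ciSup_mono (pfl_bdd v) fun θ => ?_
  have := mul_le_mul_of_nonneg_left h (Nat.cast_nonneg (α := ℝ) (θ : ℕ))
  linarith

theorem pfl_mid (u v : ℝ) : pfl K D M ((u + v) / 2) ≤ (pfl K D M u + pfl K D M v) / 2 := by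
  refine ciSup_le fun θ => ?_
  have h1 := le_ciSup (pfl_bdd (K := K) (D := D) (M := M) u) θ
  have h2 := le_ciSup (pfl_bdd (K := K) (D := D) (M := M) v) θ
  change _ ≤ (pfl K D M u) at h1
  change _ ≤ (pfl K D M v) at h2
  have h3 : ((θ : ℕ) : ℝ) * ((u + v) / 2) = ((θ : ℕ) * u + (θ : ℕ) * v) / 2 := by ring
  rw [h3]
  linarith

end profile

/-! ### The linear system -/

section lin

variable {n T q N d K : ℕ} {I : Ideal (MvPolynomial (Fin (n + 1)) (AlgebraicClosure ℚ))}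
  {g : Fin q → Fin T → MvPolynomial (Fin (n + 1)) (AlgebraicClosure ℚ)}
  {P : Fin (N + 1) → MvPolynomial (Fin (n + 1)) (AlgebraicClosure ℚ)}

/-- the elements of the linear system which vanish on the subscheme -/
noncomputable def LS (I : Ideal (MvPolynomial (Fin (n + 1)) (AlgebraicClosure ℚ)))
    (P : Fin (N + 1) → MvPolynomial (Fin (n + 1)) (AlgebraicClosure ℚ))
    (J : Ideal (MvPolynomial (Fin (n + 1)) (AlgebraicClosure ℚ))) :
    Submodule (AlgebraicClosure ℚ) (Fin (N + 1) → AlgebraicClosure ℚ) :=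
  ((sat (J ⊔ I)).restrictScalars (AlgebraicClosure ℚ)).comap
    (Fintype.linearCombination (AlgebraicClosure ℚ) P)

theorem mem_LS {J : Ideal (MvPolynomial (Fin (n + 1)) (AlgebraicClosure ℚ))}
    {w : Fin (N + 1) → AlgebraicClosure ℚ} :
    w ∈ LS I P J ↔ ∑ k, w k • P k ∈ sat (J ⊔ I) := by
  unfold LS
  rw [Submodule.mem_comap, Fintype.linearCombination_apply]
  rfl

theorem LS_mono {J J' : Ideal (MvPolynomial (Fin (n + 1)) (AlgebraicClosure ℚ))} (h : J ≤ J') :
    LS I P J ≤ LS I P J' := by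
  intro w hw
  rw [mem_LS] at hw ⊢
  exact sat_mono (sup_le_sup h le_rfl) hw

theorem LS_top {J : Ideal (MvPolynomial (Fin (n + 1)) (AlgebraicClosure ℚ))} (h : J = ⊤) :
    LS I P J = ⊤ := by
  rw [eq_top_iff]
  intro w _
  rw [mem_LS, h, top_sup_eq]
  exact le_sat _ Submodule.mem_top

/-- the filtration by the sums of products of powers -/
noncomputable def CL (I : Ideal (MvPolynomial (Fin (n + 1)) (AlgebraicClosure ℚ)))
    (P : Fin (N + 1) → MvPolynomial (Fin (n + 1)) (AlgebraicClosure ℚ))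
    (g : Fin q → Fin T → MvPolynomial (Fin (n + 1)) (AlgebraicClosure ℚ)) (K : ℕ)
    (U : Finset (Fin q → Fin (K + 1))) :
    Submodule (AlgebraicClosure ℚ) (Fin (N + 1) → AlgebraicClosure ℚ) :=
  LS I P (⨆ e ∈ U, ∏ i, (Ideal.span (Set.range (g i))) ^ ((e i : Fin (K + 1)) : ℕ))

theorem CL_mono : Monotone (CL I P g K) := fun _ _ h => LS_mono (biSup_mono fun _ he => h he)

theorem CL_top : CL I P g K Finset.univ = ⊤ := by
  refine LS_top (eq_top_iff.2 ?_)
  refine le_trans ?_ (le_iSup₂_of_le (f := fun (e : Fin q → Fin (K + 1)) (_ : e ∈ Finset.univ) =>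
    ∏ i, (Ideal.span (Set.range (g i))) ^ ((e i : Fin (K + 1)) : ℕ)) (fun _ => 0)
    (Finset.mem_univ _) le_rfl)
  simp

/-- the filtration by the order along one subscheme -/
noncomputable def FL (I : Ideal (MvPolynomial (Fin (n + 1)) (AlgebraicClosure ℚ)))
    (P : Fin (N + 1) → MvPolynomial (Fin (n + 1)) (AlgebraicClosure ℚ))
    (g : Fin T → MvPolynomial (Fin (n + 1)) (AlgebraicClosure ℚ)) (e : ℕ) :
    Submodule (AlgebraicClosure ℚ) (Fin (N + 1) → AlgebraicClosure ℚ) :=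
  LS I P ((Ideal.span (Set.range g)) ^ e)

theorem FL_antitone (g' : Fin T → MvPolynomial (Fin (n + 1)) (AlgebraicClosure ℚ)) :
    Antitone (FL I P g') := fun _ _ h => LS_mono (Ideal.pow_le_pow_right h)

theorem FL_zero (g' : Fin T → MvPolynomial (Fin (n + 1)) (AlgebraicClosure ℚ)) :
    FL I P g' 0 = ⊤ := LS_top (by rw [pow_zero, Ideal.one_eq_top])

theorem FL_le (g' : Fin T → MvPolynomial (Fin (n + 1)) (AlgebraicClosure ℚ)) (e : ℕ) :
    finrank (AlgebraicClosure ℚ) (FL I P g' e) ≤ N + 1 := by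
  have h1 := Submodule.finrank_le (FL I P g' e)
  rwa [finrank_fin_fun] at h1

/-- the intersection property for the scores -/
theorem prop_of_proper' {A : Finset (Fin q)} (hA : Proper I g A) (t : Fin q → ℝ)
    (htA : ∀ i, t i ≠ 0 → i ∈ A) (R : Finset (Fin q)) (i : Fin q) (hi : i ∉ R)
    (b0 : Fin q → Fin (K + 1)) (o : ℕ) (ho : o ≤ K) (v : Fin (N + 1) → AlgebraicClosure ℚ)
    (hv : v ∈ CL I P g K (up t R (sc t R b0))) (hv' : v ∈ FL I P (g i) o) :
    v ∈ CL I P g K (up t (insert i R) (sc t R b0 + t i * (o : ℝ))) := by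
  classical
  by_cases hti : t i = 0
  · have h1 : (up t (insert i R) (sc t R b0 + t i * (o : ℝ)) : Finset (Fin q → Fin (K + 1))) =
        up t R (sc t R b0) := by
      unfold up sc
      refine Finset.filter_congr fun b _ => ?_
      rw [Finset.sum_insert hi, hti, zero_mul, zero_mul, add_zero, zero_add]
    rw [h1]
    exact hv
  have hiA := htA i hti
  set Q : MvPolynomial (Fin (n + 1)) (AlgebraicClosure ℚ) := ∑ k, v k • P k with hQ
  have hP : Q ∈ sat ((⨆ e ∈ (up t R (sc t R b0) : Finset (Fin q → Fin (K + 1))),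
      ∏ k, (Ideal.span (Set.range (g k))) ^ ((e k : Fin (K + 1)) : ℕ)) ⊔ I) := mem_LS.1 hv
  have hP' : Q ∈ sat ((Ideal.span (Set.range (g i))) ^ o ⊔ I) := mem_LS.1 hv'
  refine mem_LS.2 ?_
  rw [← hQ]
  set x := sc t R b0 with hx
  set rs : (Fin q → Fin (K + 1)) → Fin q → Fin (K + 1) := fun b k =>
    if k ∈ R ∧ t k ≠ 0 then b k else 0 with hrs
  set U' : Finset (Fin q → ℕ) := (up t R x).image fun b k => ((rs b k : Fin (K + 1)) : ℕ)
    with hU'
  have hle : (⨆ e ∈ (up t R x : Finset (Fin q → Fin (K + 1))),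
      ∏ k, (Ideal.span (Set.range (g k))) ^ ((e k : Fin (K + 1)) : ℕ)) ≤
      ⨆ e ∈ U', ∏ k, (Ideal.span (Set.range (g k))) ^ e k := by
    refine iSup₂_le fun b hb => ?_
    refine le_trans ?_ (le_iSup₂_of_le (f := fun (e : Fin q → ℕ) (_ : e ∈ U') =>
      ∏ k, (Ideal.span (Set.range (g k))) ^ e k) (fun k => ((rs b k : Fin (K + 1)) : ℕ))
      (Finset.mem_image_of_mem _ hb) le_rfl)
    refine Finset.prod_le_prod' fun k _ => ?_
    refine Ideal.pow_le_pow_right ?_
    simp only [hrs]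
    split_ifs
    · exact le_rfl
    · exact Nat.zero_le _
  have hP1 : Q ∈ sat ((⨆ e ∈ U', ∏ k, (Ideal.span (Set.range (g k))) ^ e k) ⊔ I) :=
    sat_mono (sup_le_sup hle le_rfl) hP
  have hrsi : ∀ b, rs b i = 0 := fun b => if_neg fun h => hi h.1
  have h2 := hA i hiA U' o (fun b hb k hk => by
    obtain ⟨b', -, rfl⟩ := Finset.mem_image.1 hb
    have h3 : k ∈ R ∧ t k ≠ 0 := by
      by_contra h3
      apply hk
      simp only [hrs]
      rw [if_neg h3]
      rfl
    exact ⟨htA k h3.2, fun h4 => hi (h4 ▸ h3.1)⟩) Q hP1 hP'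
  refine sat_mono (sup_le_sup ?_ le_rfl) h2
  rw [Ideal.iSup_mul]
  refine iSup_le fun b => ?_
  rw [Ideal.iSup_mul]
  refine iSup_le fun hb => ?_
  obtain ⟨b', hb', rfl⟩ := Finset.mem_image.1 hb
  set e' : Fin q → Fin (K + 1) := Function.update (rs b') i ⟨o, by omega⟩ with he'
  have hmem : e' ∈ (up t (insert i R) (x + t i * (o : ℝ)) : Finset (Fin q → Fin (K + 1))) := by
    refine Finset.mem_filter.2 ⟨Finset.mem_univ _, ?_⟩
    have h3 := (Finset.mem_filter.1 hb').2
    unfold sc at h3 ⊢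
    rw [Finset.sum_insert hi]
    have h4 : ∑ k ∈ R, t k * (((e' k : Fin (K + 1)) : ℕ) : ℝ) =
        ∑ k ∈ R, t k * (((b' k : Fin (K + 1)) : ℕ) : ℝ) := by
      refine Finset.sum_congr rfl fun k hk => ?_
      have hki : k ≠ i := fun h => hi (h ▸ hk)
      rw [he', Function.update_of_ne hki]
      by_cases htk : t k = 0
      · rw [htk, zero_mul, zero_mul]
      · simp only [hrs]
        rw [if_pos ⟨hk, htk⟩]
    rw [h4, he', Function.update_self]
    linarith
  refine le_trans ?_ (le_iSup₂_of_le (f := fun (e : Fin q → Fin (K + 1))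
    (_ : e ∈ (up t (insert i R) (x + t i * (o : ℝ)) : Finset (Fin q → Fin (K + 1)))) =>
    ∏ k, (Ideal.span (Set.range (g k))) ^ ((e k : Fin (K + 1)) : ℕ)) e' hmem le_rfl)
  have e1 : ∏ k, (Ideal.span (Set.range (g k))) ^ ((rs b' k : Fin (K + 1)) : ℕ) =
      ∏ k ∈ Finset.univ.erase i, (Ideal.span (Set.range (g k))) ^
        ((rs b' k : Fin (K + 1)) : ℕ) := by
    rw [← Finset.mul_prod_erase _ _ (Finset.mem_univ i), hrsi]
    simp
  have e2 : ∏ k, (Ideal.span (Set.range (g k))) ^ ((e' k : Fin (K + 1)) : ℕ) =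
      (Ideal.span (Set.range (g i))) ^ o * ∏ k ∈ Finset.univ.erase i,
        (Ideal.span (Set.range (g k))) ^ ((rs b' k : Fin (K + 1)) : ℕ) := by
    rw [← Finset.mul_prod_erase _ _ (Finset.mem_univ i), he', Function.update_self]
    congr 1
    refine Finset.prod_congr rfl fun k hk => ?_
    rw [Function.update_of_ne (Finset.ne_of_mem_erase hk)]
  rw [e2]
  show (∏ k, (Ideal.span (Set.range (g k))) ^ ((rs b' k : Fin (K + 1)) : ℕ)) * _ ≤ _
  rw [e1, mul_comm]

/-- the values of the base point free linear system -/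
theorem free_lower {F : Type} [NormedField F] [CharZero F] [IsAlgClosed F]
    (hP : ∀ k, (P k).IsHomogeneous d) (hfree : ∀ l, ∃ M : ℕ, X l ^ M ∈
      Ideal.span (Set.range P) ⊔ I) :
    ∃ A : ℝ, 1 ≤ A ∧ ∀ (j : AlgebraicClosure ℚ →+* F) (y : Fin (n + 1) → F), y ≠ 0 →
      (∀ c : F, ∀ Q ∈ I, eval (c • y) (map j Q) = 0) →
      ‖y‖ ^ d ≤ A * ‖fun k => eval y (map j (P k))‖ := by
  choose M hM using hfree
  have hA : ∀ l : Fin (n + 1), ∃ A : ℝ, 0 ≤ A ∧ ∀ (j : AlgebraicClosure ℚ →+* F)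
      (z : Fin (n + 1) → F), ‖z‖ ≤ 1 → z l = 1 → (∀ Q ∈ I, eval z (map j Q) = 0) →
      1 ≤ A * ‖fun k => eval z (map j (P k))‖ := by
    intro l
    have hle : Ideal.span (Set.range P) ⊔ I ≤ good (F := F) I
        (fun j y => ‖fun t => eval y (map j (P t))‖) (fun _ _ => norm_nonneg _) :=
      sup_le (span_good I P) (le_good _ _ _)
    obtain ⟨A, hA0, hA⟩ := hle (hM l)
    refine ⟨A, hA0, fun j z hz hzl hI => ?_⟩
    have h1 := hA j z hz hI
    rwa [map_pow, map_pow, map_X, eval_X, hzl, one_pow, norm_one] at h1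
  choose A hA0 hA using hA
  have hs : 0 ≤ ∑ l, A l := Finset.sum_nonneg fun l _ => hA0 l
  refine ⟨1 + ∑ l, A l, by linarith, fun j y hy hI => ?_⟩
  obtain ⟨l, hl⟩ := exists_coord y
  have hny : 0 < ‖y‖ := norm_pos_iff.2 hy
  have hyl : y l ≠ 0 := by
    rw [← norm_pos_iff, hl]; exact hny
  set z : Fin (n + 1) → F := (y l)⁻¹ • y with hz
  have hyz : y = y l • z := by
    rw [hz, smul_smul, mul_inv_cancel₀ hyl, one_smul]
  have hzn : ‖z‖ ≤ 1 := by
    rw [hz, norm_smul, norm_inv, hl, inv_mul_cancel₀ hny.ne']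
  have hzl : z l = 1 := by
    rw [hz, Pi.smul_apply, smul_eq_mul, inv_mul_cancel₀ hyl]
  have h1 := hA l j z hzn hzl (fun Q hQ => hI _ Q hQ)
  have h2 : ‖fun k => eval y (map j (P k))‖ = ‖y‖ ^ d * ‖fun k => eval z (map j (P k))‖ := by
    have h3 : (fun k => eval y (map j (P k))) = (y l) ^ d • fun k => eval z (map j (P k)) := by
      funext k
      conv_lhs => rw [hyz]
      rw [eval_smul_hom (hP k), Pi.smul_apply, smul_eq_mul]
    rw [h3, norm_smul, norm_pow, hl]
  rw [h2]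
  have h4 : A l ≤ ∑ l, A l := Finset.single_le_sum (f := A) (fun l _ => hA0 l) (Finset.mem_univ l)
  have h5 : 0 ≤ ‖fun k => eval z (map j (P k))‖ := norm_nonneg _
  have h6 : 1 ≤ (1 + ∑ l, A l) * ‖fun k => eval z (map j (P k))‖ :=
    h1.trans (mul_le_mul_of_nonneg_right (by linarith) h5)
  have h7 : 0 ≤ ‖y‖ ^ d := by positivity
  calc ‖y‖ ^ d = ‖y‖ ^ d * 1 := (mul_one _).symm
    _ ≤ ‖y‖ ^ d * ((1 + ∑ l, A l) * ‖fun k => eval z (map j (P k))‖) :=
        mul_le_mul_of_nonneg_left h6 h7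
    _ = _ := by ring

/-- the values of the elements of the members of the filtration -/
theorem set_bound3 (hP : ∀ k, (P k).IsHomogeneous d) (hfree : ∀ l, ∃ M : ℕ, X l ^ M ∈
      Ideal.span (Set.range P) ⊔ I) (a : Fin q → ℕ) (hg : ∀ i t, (g i t).IsHomogeneous (a i))
    (U : Finset (Fin q → Fin (K + 1))) (w : Fin (N + 1) → AlgebraicClosure ℚ)
    (F : Type) [NormedField F] [CharZero F] [IsAlgClosed F] : ∃ A' : ℝ, 1 ≤ A' ∧
      (w ∈ CL I P g K U → ∀ (j : AlgebraicClosure ℚ →+* F) (y : Fin (n + 1) → F),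
        y ≠ 0 → (∀ c : F, ∀ Q ∈ I, eval (c • y) (map j Q) = 0) →
        ‖lf (fun k => j (w k)) (fun k => eval y (map j (P k)))‖ ≤
          A' * ‖fun k => eval y (map j (P k))‖ *
          ∑ e ∈ U, Real.exp (-∑ i, (((e i : Fin (K + 1)) : ℕ) : ℝ) * lg (a i) (g i) j y)) := by
  classical
  by_cases ho : w ∈ CL I P g K U
  swap
  · exact ⟨1, le_rfl, fun h => absurd h ho⟩
  set em : (Fin q → Fin (K + 1)) → Fin q → ℕ := fun e i => ((e i : Fin (K + 1)) : ℕ) with hem
  have hinj : Function.Injective em := by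
    intro e e' h
    funext i
    exact Fin.ext (congrFun h i)
  have hsup : (⨆ e ∈ U.image em, ∏ i, (Ideal.span (Set.range (g i))) ^ e i) =
      ⨆ e ∈ U, ∏ i, (Ideal.span (Set.range (g i))) ^ ((e i : Fin (K + 1)) : ℕ) :=
    Finset.iSup_finset_image
  have hQh : (∑ k, w k • P k).IsHomogeneous d := by
    refine (homogeneousSubmodule (Fin (n + 1)) (AlgebraicClosure ℚ) d).sum_mem fun k _ => ?_
    exact (homogeneousSubmodule (Fin (n + 1)) (AlgebraicClosure ℚ) d).smul_mem _ (hP k)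
  obtain ⟨A1, hA1, hA⟩ := Pool.Agent.T9h31.Fu.stBdU n q T d a (U.image em) I g hg
    (∑ k, w k • P k) hQh (by
      rw [hsup]
      exact mem_LS.1 ho) F
  obtain ⟨A2, hA2, hlow⟩ := free_lower (F := F) hP hfree
  refine ⟨A1 * A2, one_le_mul_of_one_le_of_one_le hA1 hA2, fun _ j y hy hI => ?_⟩
  have h3 : lf (fun k => j (w k)) (fun k => eval y (map j (P k))) =
      eval y (map j (∑ k, w k • P k)) := by
    unfold lf
    rw [map_sum, map_sum]
    refine Finset.sum_congr rfl fun k _ => ?_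
    rw [MvPolynomial.smul_eq_C_mul, map_mul, map_mul, map_C, eval_C]
  rw [h3]
  refine (hA j y hy hI).trans ?_
  rw [Finset.sum_image hinj.injOn]
  refine mul_le_mul_of_nonneg_right ?_ (Finset.sum_nonneg fun e _ => (Real.exp_pos _).le)
  rw [mul_assoc]
  exact mul_le_mul_of_nonneg_left (hlow j y hy hI) (by linarith)

end lin

end Pool.Agent.T9h24.Fv
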