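import Mathlib
import Pool.Agent.T9h24.Fv.Lin

/-!
FV: the general theorem for base point free linear systems, integral coordinates.
-/

set_option autoImplicit false
set_option linter.unusedSectionVars false

open Finset MvPolynomial NumberField IsDedekindDomain Module

namespace Pool.Agent.T9h24.Fv

open Pool.Agent.T9h24 Pool.Agent.T9h24.Ft Pool.Agent.T9h24.Fu

theorem eval_map_int {n : ℕ} {F : Type} [Field F] [CharZero F] (j : AlgebraicClosure ℚ →+* F)
    (p : MvPolynomial (Fin (n + 1)) ℤ) (y : Fin (n + 1) → F) :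
    eval y (map j (map (algebraMap ℤ (AlgebraicClosure ℚ)) p)) = eval₂ (algebraMap ℤ F) y p := by
  rw [MvPolynomial.map_map, eval_map]
  congr 1
  exact RingHom.ext_int _ _

theorem map_aeval_int {n : ℕ} {E : Type} [Field E] [NumberField E] {F : Type} [Field F]
    [CharZero F] (τ : E →+* F) (x : Fin (n + 1) → 𝓞 E) (p : MvPolynomial (Fin (n + 1)) ℤ) :
    τ ((aeval x p : 𝓞 E) : E) = eval₂ (algebraMap ℤ F) (fun i => τ (x i : E)) p := by
  have h1 : ((aeval x p : 𝓞 E) : E) = eval₂ (algebraMap ℤ E) (fun i => (x i : E)) p := by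
    have h2 : (algebraMap (𝓞 E) E) (eval₂ (algebraMap ℤ (𝓞 E)) x p) = _ :=
      eval₂_comp_left (algebraMap (𝓞 E) E) (algebraMap ℤ (𝓞 E)) x p
    rw [aeval_def]
    refine h2.trans ?_
    congr 1
  rw [h1]
  have h2 := eval₂_comp_left τ (algebraMap ℤ E) (fun i => (x i : E)) p
  rw [h2]
  congr 1
  exact RingHom.ext_int _ _

/-- the ranks of a score function -/
noncomputable def rkL {q K : ℕ} (t : Fin q → ℝ) :
    (Fin q → Fin (K + 1)) → Fin (Fintype.card (Fin q → Fin (K + 1)) + 1) := fun e =>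
  ⟨rk (sc t Finset.univ) e, by have := rk_le (sc t Finset.univ) e; omega⟩

theorem up_rkL {q K : ℕ} (t : Fin q → ℝ) (b0 : Fin q → Fin (K + 1)) :
    (up t Finset.univ (sc t Finset.univ b0) : Finset (Fin q → Fin (K + 1))) =
      Finset.univ.filter fun e => rk (sc t Finset.univ) b0 ≤ rk (sc t Finset.univ) e := by
  classical
  unfold up
  ext e
  simp only [Finset.mem_filter, Finset.mem_univ, true_and]
  exact (rk_iff _ _ _).symm

theorem exists_scoreL {V : Type} {Kf : Type} [Field Kf] [AddCommGroup V] [Module Kf V]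
    {q K : ℕ} (C : Finset (Fin q → Fin (K + 1)) → Submodule Kf V) (hC0 : C Finset.univ = ⊤)
    (t : Fin q → ℝ) (v : V) :
    ∃ b0 : Fin q → Fin (K + 1), v ∈ C (up t Finset.univ (sc t Finset.univ b0)) ∧
    ∀ b1 : Fin q → Fin (K + 1), sc t Finset.univ b0 < sc t Finset.univ b1 →
      v ∉ C (up t Finset.univ (sc t Finset.univ b1)) := by
  classical
  obtain ⟨bm, -, hbm⟩ := Finset.exists_min_image (Finset.univ : Finset (Fin q → Fin (K + 1)))
    (fun b => sc t Finset.univ b) Finset.univ_nonempty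
  have hm : bm ∈ Finset.univ.filter fun b0 : Fin q → Fin (K + 1) =>
      v ∈ C (up t Finset.univ (sc t Finset.univ b0)) := by
    refine Finset.mem_filter.2 ⟨Finset.mem_univ _, ?_⟩
    have h1 : (up t Finset.univ (sc t Finset.univ bm) : Finset (Fin q → Fin (K + 1))) =
        Finset.univ := by
      unfold up
      exact Finset.filter_true_of_mem fun b hb => hbm b hb
    rw [h1, hC0]
    exact Submodule.mem_top
  obtain ⟨b0, hb0, hmax⟩ := Finset.exists_max_image _ (fun b => sc t Finset.univ b) ⟨bm, hm⟩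
  refine ⟨b0, (Finset.mem_filter.1 hb0).2, fun b1 hlt hmem => ?_⟩
  exact absurd (hmax b1 (Finset.mem_filter.2 ⟨Finset.mem_univ _, hmem⟩)) (not_le.2 hlt)

open Classical in
/-- **The general inequality**, integral coordinates. -/
theorem degF3 (hK : StLemK) {m n q T N : ℕ} (d K r : ℕ) (hr : 1 ≤ r)
    (G : Fin m → MvPolynomial (Fin (n + 1)) ℚ) (g0 : Fin m → ℕ)
    (hG : ∀ k, (G k).IsHomogeneous (g0 k))
    (Pz : Fin (N + 1) → MvPolynomial (Fin (n + 1)) ℤ) (hPh : ∀ k, (Pz k).IsHomogeneous d)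
    (P : Fin (N + 1) → MvPolynomial (Fin (n + 1)) (AlgebraicClosure ℚ))
    (hPk : ∀ k, P k = map (algebraMap ℤ (AlgebraicClosure ℚ)) (Pz k))
    (hPi : ∀ w : Fin (N + 1) → AlgebraicClosure ℚ, ∑ k, w k • P k ∈ idX G → w = 0)
    (hfree : ∀ l, ∃ M : ℕ, X l ^ M ∈ Ideal.span (Set.range P) ⊔ idX G)
    (g : Fin q → Fin T → MvPolynomial (Fin (n + 1)) (AlgebraicClosure ℚ)) (a : Fin q → ℕ)
    (hg : ∀ i t, (g i t).IsHomogeneous (a i)) (D : Fin q → ℕ → ℕ)
    (hD : ∀ i t, finrank (AlgebraicClosure ℚ) (FL (idX G) P (g i) t) = D i t) :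
    ∃ Z : Finset (MvPolynomial (Fin (n + 1)) (AlgebraicClosure ℚ)),
      (∀ P ∈ Z, P ∉ idX G ∧ ∃ M, P.IsHomogeneous M) ∧
      ∀ (S : Finset Nat.Primes) (ε : ℝ), 0 < ε → ∃ Cc : ℝ, ∀ (E : Type) [Field E]
        [NumberField E], Module.finrank ℚ E = r → ∀ x : Fin (n + 1) → 𝓞 E, x ≠ 0 →
      (∀ k, aeval (fun i => (x i : E)) (G k) = 0) →
      (∀ P ∈ Z, ∀ τ : E →+* AlgebraicClosure ℚ, eval (fun i => τ (x i : E)) P ≠ 0) →
      ∀ (e : (E →+* ℂ) → Finset (Fin q)) (j : AlgebraicClosure ℚ →+* ℂ)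
        (ep : ∀ p : Nat.Primes, (E →+* PadicAlgCl p) → Finset (Fin q))
        (jp : ∀ p : Nat.Primes, AlgebraicClosure ℚ →+* PadicAlgCl p),
        (∀ τ, Proper (idX G) g (e τ)) → (∀ p ∈ S, ∀ τ, Proper (idX G) g (ep p τ)) →
      ∑ i, LstG (pfl K (D i) (N + 1)) r (fun τ : E →+* ℂ =>
          if i ∈ e τ then lg (a i) (g i) j (fun l => τ (x l : E)) else 0) +
        ∑ p ∈ S, ∑ i, LstG (pfl K (D i) (N + 1)) r (fun τ : E →+* PadicAlgCl p =>
          if i ∈ ep p τ then lg (a i) (g i) (jp p) (fun l => τ (x l : E)) else 0) ≤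
        (1 + ε) * (Height.logHeight (fun k => ((aeval x (Pz k) : 𝓞 E) : E)) / r) + Cc := by
  obtain ⟨I, hI⟩ : ∃ I, I = idX G := ⟨_, rfl⟩
  rw [← hI] at hPi hfree
  have hD : ∀ i t, finrank (AlgebraicClosure ℚ) (FL I P (g i) t) = D i t := by
    rw [hI]
    exact hD
  have hPh' : ∀ k, (P k).IsHomogeneous d := fun k => by
    rw [hPk]
    exact (hPh k).map _
  have hPi' : ∀ w : Fin (N + 1) → AlgebraicClosure ℚ, w ≠ 0 → ∑ k, w k • P k ∉ I :=
    fun w hw hmem => hw (hPi w hmem)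
  have hDle : ∀ i t, D i t ≤ N + 1 := fun i t => by
    rw [← hD]
    exact FL_le _ _
  have hr0 : (0 : ℝ) < r := by exact_mod_cast hr
  set b : Basis (Fin (N + 1)) (AlgebraicClosure ℚ) (Fin (N + 1) → AlgebraicClosure ℚ) :=
    Pi.basisFun (AlgebraicClosure ℚ) (Fin (N + 1)) with hb
  have hbs : ∀ w : Fin (N + 1) → AlgebraicClosure ℚ, ∑ k, w k • b k = w := fun w => by
    rw [hb]
    exact (Pi.basisFun (AlgebraicClosure ℚ) (Fin (N + 1))).sum_repr w
  -- the bases
  choose W hWd hWk using fun ρ : (Fin q → Fin (K + 1)) →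
      Fin (Fintype.card (Fin q → Fin (K + 1)) + 1) =>
    one_basis b (fun m => CL I P g K (Finset.univ.filter fun e => m ≤ (ρ e : ℕ)))
      (fun m m' h => CL_mono fun e he => by
        refine Finset.mem_filter.2 ⟨Finset.mem_univ _, ?_⟩
        exact h.trans (Finset.mem_filter.1 he).2)
  obtain ⟨G', hG'0, hG'1, hG'2, hG'⟩ := exists_poly (Finset.univ.image fun p :
    ((Fin q → Fin (K + 1)) → Fin (Fintype.card (Fin q → Fin (K + 1)) + 1)) ×
      Fin (N + 1) × Fin (N + 1) => W p.1 p.2.1 p.2.2)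
  have hWr : ∀ e a i, W e a i ∈ (mp (AlgebraicClosure ℚ) G').roots := fun e a i =>
    hG' _ (Finset.mem_image.2 ⟨(e, a, i), Finset.mem_univ _, rfl⟩)
  -- the thresholds
  have hN0 : (0 : ℝ) < (N : ℝ) + 1 := by positivity
  have hθ : ∀ (i : Fin q) (u : Fin r), ∃ θ : Fin (K + 1),
      ((θ : ℕ) * (((u : ℝ) + 1) / r) - ∑ t ∈ Finset.range θ,
        (1 - (D i (t + 1) : ℝ) / ((N + 1 : ℕ) : ℝ))) = pfl K (D i) (N + 1) (((u : ℝ) + 1) / r) :=
    fun i u => exists_eq_ciSup_of_finite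
  choose θ hθ using hθ
  have hTF : ∀ i (s : ℕ), ((TF N (FL I P (g i)) s : ℕ) : ℝ) = ((N : ℝ) + 1) *
      ∑ t ∈ Finset.range s, (1 - (D i (t + 1) : ℝ) / ((N + 1 : ℕ) : ℝ)) := by
    intro i s
    unfold TF
    rw [Finset.mul_sum]
    push_cast
    refine Finset.sum_congr rfl fun t _ => ?_
    have h1 : D i (t + 1) ≤ N + 1 := hDle i (t + 1)
    rw [hD, Nat.cast_sub h1]
    push_cast
    field_simp
  have hT : ∀ i, ∀ u : Fin r, ((N : ℝ) + 1) *
      (1 * (r / (u + 1) * pfl K (D i) (N + 1) (((u : ℝ) + 1) / r))) ≤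
      (((θ i u : Fin (K + 1)) : ℕ) : ℝ) * ((N : ℝ) + 1) -
        r / (u + 1) * ((TF N (FL I P (g i)) (θ i u) : ℕ) : ℝ) := by
    intro i u
    rw [hTF, ← hθ i u]
    have hu0 : (0 : ℝ) < (u : ℝ) + 1 := by positivity
    refine le_of_eq ?_
    field_simp
  obtain ⟨Z, hZ, h⟩ := mainI N r hr G' hG'0 hG'1 hG'2
  refine ⟨insert (P 0) (Z.image fun u => ∑ k, u k • P k), fun Q hQ => ?_, fun S ε hε => ?_⟩
  · rw [← hI]
    rcases Finset.mem_insert.1 hQ with h0 | h0
    · rw [h0]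
      refine ⟨?_, d, hPh' 0⟩
      have h1 := hPi' (Pi.single 0 1) (by
        intro h2
        have h3 := congrFun h2 0
        rw [Pi.single_eq_same] at h3
        exact one_ne_zero h3)
      have h2 : ∑ k, (Pi.single 0 1 : Fin (N + 1) → AlgebraicClosure ℚ) k • P k = P 0 := by
        rw [Finset.sum_eq_single 0]
        · rw [Pi.single_eq_same, one_smul]
        · intro k _ hk
          rw [Pi.single_eq_of_ne hk, zero_smul]
        · intro h3
          exact absurd (Finset.mem_univ _) h3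
      rwa [h2] at h1
    · obtain ⟨u, hu, rfl⟩ := Finset.mem_image.1 h0
      refine ⟨hPi' u (hZ u hu), d, ?_⟩
      refine (homogeneousSubmodule (Fin (n + 1)) (AlgebraicClosure ℚ) d).sum_mem fun k _ => ?_
      exact (homogeneousSubmodule (Fin (n + 1)) (AlgebraicClosure ℚ) d).smul_mem _ (hPh' k)
  obtain ⟨Cc, hC⟩ := h S (ε * ((N : ℝ) + 1)) (mul_pos hε hN0)
  -- the constants of the places
  have hbound : ∀ (F : Type) [NormedField F] [CharZero F] [IsAlgClosed F], ∃ A : ℝ, 1 ≤ A ∧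
      ∀ (j : AlgebraicClosure ℚ →+* F) (y : Fin (n + 1) → F), y ≠ 0 →
        (∀ c : F, ∀ Q ∈ I, eval (c • y) (map j Q) = 0) → ∀ t : Fin q → ℝ,
        (∀ i, t i ≤ lg (a i) (g i) j y) → ∀ (a' : Fin (N + 1)) (b0 : Fin q → Fin (K + 1)),
        W (rkL t) a' ∈ CL I P g K (up t Finset.univ (sc t Finset.univ b0)) →
        ‖lf (fun i => j (W (rkL t) a' i)) (fun k => eval y (map j (P k)))‖ ≤
          A * ‖fun k => eval y (map j (P k))‖ * Real.exp (-sc t Finset.univ b0) := by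
    intro F _ _ _
    choose A hA1 hA using fun z : ((Fin q → Fin (K + 1)) →
        Fin (Fintype.card (Fin q → Fin (K + 1)) + 1)) × Fin (N + 1) ×
        Finset (Fin q → Fin (K + 1)) =>
      set_bound3 (K := K) hPh' hfree a hg z.2.2 (W z.1 z.2.1) F
    have hA0 : ∀ z, 0 ≤ A z := fun z => zero_le_one.trans (hA1 z)
    have hs : 0 ≤ ∑ z, A z := Finset.sum_nonneg fun z _ => hA0 z
    refine ⟨1 + (∑ z, A z) * (Fintype.card (Fin q → Fin (K + 1)) : ℝ), ?_,
      fun j y hy hy' t ht a' b0 hmem => ?_⟩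
    · have : 0 ≤ (∑ z, A z) * (Fintype.card (Fin q → Fin (K + 1)) : ℝ) := by positivity
      linarith
    refine (hA (rkL t, a', up t Finset.univ (sc t Finset.univ b0)) hmem j y hy hy').trans ?_
    have h1 := Finset.single_le_sum (f := A) (fun z _ => hA0 z)
      (Finset.mem_univ (rkL t, a', up t Finset.univ (sc t Finset.univ b0)))
    have h2 : ∑ e ∈ (up t Finset.univ (sc t Finset.univ b0) : Finset (Fin q → Fin (K + 1))),
        Real.exp (-∑ i, (((e i : Fin (K + 1)) : ℕ) : ℝ) * lg (a i) (g i) j y) ≤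
        (Fintype.card (Fin q → Fin (K + 1)) : ℝ) * Real.exp (-sc t Finset.univ b0) := by
      have h3 : ∀ e ∈ (up t Finset.univ (sc t Finset.univ b0) :
          Finset (Fin q → Fin (K + 1))),
          Real.exp (-∑ i, (((e i : Fin (K + 1)) : ℕ) : ℝ) * lg (a i) (g i) j y) ≤
            Real.exp (-sc t Finset.univ b0) := by
        intro e he
        refine Real.exp_le_exp.2 (neg_le_neg ?_)
        refine (Finset.mem_filter.1 he).2.trans ?_
        unfold sc
        refine Finset.sum_le_sum fun i _ => ?_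
        rw [mul_comm]
        exact mul_le_mul_of_nonneg_left (ht i) (Nat.cast_nonneg _)
      refine (Finset.sum_le_card_nsmul _ _ _ h3).trans ?_
      rw [nsmul_eq_mul]
      refine mul_le_mul_of_nonneg_right ?_ (Real.exp_pos _).le
      exact_mod_cast Finset.card_le_univ _
    have h4 : 0 ≤ ‖fun k => eval y (map j (P k))‖ := norm_nonneg _
    have h5 : 0 ≤ Real.exp (-sc t Finset.univ b0) := (Real.exp_pos _).le
    have h6 : (0 : ℝ) ≤ (Fintype.card (Fin q → Fin (K + 1)) : ℝ) := Nat.cast_nonneg _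
    calc A (rkL t, a', up t Finset.univ (sc t Finset.univ b0)) *
          ‖fun k => eval y (map j (P k))‖ * _
        ≤ (∑ z, A z) * ‖fun k => eval y (map j (P k))‖ *
            ((Fintype.card (Fin q → Fin (K + 1)) : ℝ) * Real.exp (-sc t Finset.univ b0)) := by
          refine mul_le_mul (mul_le_mul_of_nonneg_right h1 h4) h2
            (Finset.sum_nonneg fun e _ => (Real.exp_pos _).le) (mul_nonneg hs h4)
      _ = ((∑ z, A z) * (Fintype.card (Fin q → Fin (K + 1)) : ℝ)) *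
            ‖fun k => eval y (map j (P k))‖ * Real.exp (-sc t Finset.univ b0) := by ring
      _ ≤ _ := by
          refine mul_le_mul_of_nonneg_right (mul_le_mul_of_nonneg_right ?_ h4) h5
          linarith
  obtain ⟨Ai, hAi1, hAi⟩ := hbound ℂ
  choose Ap hAp1 hAp using fun p : Nat.Primes => hbound (PadicAlgCl p)
  obtain ⟨Ki, hKi⟩ := filt_place2 hK (F := ℂ) (r := r) (dd := K) b G' hG'0 W hWd hWr
    (fun i => FL I P (g i)) (fun i => FL_antitone _) (fun i => FL_zero _) (CL I P g K) CL_mono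
    CL_top (fun i u => (θ i u : ℕ)) (fun i u => by have := (θ i u).2; omega) Ai hAi1
  choose Kp hKp using fun p : Nat.Primes => filt_place2 hK (F := PadicAlgCl p) (r := r) (dd := K)
    b G' hG'0 W hWd hWr
    (fun i => FL I P (g i)) (fun i => FL_antitone _) (fun i => FL_zero _) (CL I P g K) CL_mono
    CL_top (fun i u => (θ i u : ℕ)) (fun i u => by have := (θ i u).2; omega) (Ap p) (hAp1 p)
  refine ⟨(Cc + (r : ℝ) ^ (N + 1) * (Ki + ∑ p ∈ S, Kp p)) /
    ((r : ℝ) ^ N * ((N : ℝ) + 1) * r),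
    fun E _ _ hE x hx hxG hxZ e j ep jp he hep => ?_⟩
  -- the point
  set Y : Fin (N + 1) → 𝓞 E := fun k => aeval x (Pz k) with hYd
  have hYm : ∀ (F : Type) [Field F] [CharZero F] (τ : E →+* F) (j : AlgebraicClosure ℚ →+* F),
      (fun i => τ (Y i : E)) = fun k => eval (fun i => τ (x i : E)) (map j (P k)) := by
    intro F _ _ τ j
    funext k
    rw [hPk, eval_map_int, hYd]
    exact map_aeval_int τ x (Pz k)
  have hxτ : ∀ (F : Type) [Field F] [CharZero F] (τ : E →+* F),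
      (fun i => τ (x i : E)) ≠ 0 := by
    intro F _ _ τ h0
    apply hx
    funext i
    have h1 : τ (x i : E) = 0 := congrFun h0 i
    exact RingOfIntegers.ext (by simpa using h1)
  have hXc : ∀ (F : Type) [Field F] [CharZero F] (τ : E →+* F)
      (j : AlgebraicClosure ℚ →+* F), ∀ c : F, ∀ P ∈ I,
        eval (c • fun i => τ (x i : E)) (map j P) = 0 := by
    intro F _ _ τ j c P hP
    rw [hI] at hP
    refine idX_eval hP j _ fun k => ?_
    rw [eval_smul_form ((hG k).map (algebraMap ℚ F)),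
      map_point (G k) (fun i => (x i : E)) τ (hxG k), mul_zero]
  have hY : Y ≠ 0 := by
    obtain ⟨τ0⟩ := exists_emb E (AlgebraicClosure ℚ)
    intro h0
    have h1 := hxZ (P 0) (Finset.mem_insert_self _ _) τ0
    apply h1
    have h2 := congrFun (hYm (AlgebraicClosure ℚ) τ0 (RingHom.id _)) 0
    rw [MvPolynomial.map_id] at h2
    rw [← h2, h0]
    simp
  have hci : Fintype.card (E →+* ℂ) = r := by rw [card_emb ℂ, hE]
  have hcp : ∀ p : Nat.Primes, Fintype.card (E →+* PadicAlgCl p) = r := fun p => by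
    rw [card_emb (PadicAlgCl p), hE]
  -- the functions
  set μi : (E →+* ℂ) → Fin q → ℝ := fun τ i =>
    if i ∈ e τ then lg (a i) (g i) j (fun l => τ (x l : E)) else 0 with hμi
  set μp : ∀ p : Nat.Primes, (E →+* PadicAlgCl p) → Fin q → ℝ := fun p τ i =>
    if i ∈ ep p τ then lg (a i) (g i) (jp p) (fun l => τ (x l : E)) else 0 with hμp
  have hμi0 : ∀ τ i, 0 ≤ μi τ i := fun τ i => by
    simp only [hμi]
    split_ifs
    · exact lg_nonneg _ _ _ _
    · exact le_rfl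
  have hμp0 : ∀ p τ i, 0 ≤ μp p τ i := fun p τ i => by
    simp only [hμp]
    split_ifs
    · exact lg_nonneg _ _ _ _
    · exact le_rfl
  obtain ⟨δi, Asi, hδi, hμδi, hδμi, hsumi⟩ := Ls.place_layersK (n' := N) hr hci
    (fun i => pfl K (D i) (N + 1)) (fun i => pfl_zero (hDle i)) (fun i u => (θ i u : ℕ))
    (fun i u => ((TF N (FL I P (g i)) (θ i u) : ℕ) : ℝ)) ((N : ℝ) + 1) 1 hN0.le zero_le_one hT
    μi hμi0
  have hlp := fun p : Nat.Primes => Ls.place_layersK (n' := N) hr (hcp p)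
    (fun i => pfl K (D i) (N + 1)) (fun i => pfl_zero (hDle i)) (fun i u => (θ i u : ℕ))
    (fun i u => ((TF N (FL I P (g i)) (θ i u) : ℕ) : ℝ)) ((N : ℝ) + 1) 1 hN0.le zero_le_one hT
    (μp p) (hμp0 p)
  choose δp Asp hδp hμδp hδμp hsump using hlp
  have hle : ∀ (F : Type) [NormedField F] (j' : AlgebraicClosure ℚ →+* F)
      (y : Fin (n + 1) → F) (A : Finset (Fin q)) (i : Fin q),
      (if i ∈ A then lg (a i) (g i) j' y else 0) ≤ lg (a i) (g i) j' y := by
    intro F _ j' y A i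
    split_ifs
    · exact le_rfl
    · exact lg_nonneg _ _ _ _
  choose bs hbs1 hbs2 using fun (t : Fin q → ℝ) (a' : Fin (N + 1)) =>
    exists_scoreL (CL I P g K) CL_top t (W (rkL t) a')
  have hkill : ∀ (t : Fin q → ℝ) (a' : Fin (N + 1)) (b0 : Fin q → Fin (K + 1)),
      sc t Finset.univ (bs t a') < sc t Finset.univ b0 →
      ∀ v ∈ CL I P g K (up t Finset.univ (sc t Finset.univ b0)),
        fn b (fun k => (W (rkL t))⁻¹ k a') v = 0 := by
    intro t a' b0 hlt v hv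
    have h1 := hbs2 t a' b0 hlt
    rw [up_rkL] at h1 hv
    refine hWk (rkL t) (rk (sc t Finset.univ) b0) a' ?_ v hv
    rw [hbs]
    exact h1
  have hMi := hKi E Y hY (fun τ => rkL (μi τ)) j μi
    (fun τ a' => sc (μi τ) Finset.univ (bs (μi τ) a')) hμi0
    (fun τ R i hi b0 o ho v hv hv' => prop_of_proper' (hI ▸ he τ) (μi τ) (fun i h0 => by
      by_contra h1
      apply h0
      simp only [hμi]
      exact if_neg h1) R i hi b0 o ho v hv hv')
    (fun τ a' b0 hlt v hv => hkill (μi τ) a' b0 hlt v hv)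
    (fun τ a' => by
      rw [hYm ℂ τ j]
      exact hAi j _ (hxτ ℂ τ) (hXc ℂ τ j) (μi τ) (fun i => hle ℂ _ _ _ _) a' _
        (hbs1 (μi τ) a')) δi Asi hδi hμδi
  have hMp : ∀ p ∈ S, _ := fun p hp => hKp p E Y hY (fun τ => rkL (μp p τ)) (jp p)
    (μp p) (fun τ a' => sc (μp p τ) Finset.univ (bs (μp p τ) a')) (hμp0 p)
    (fun τ R i hi b0 o ho v hv hv' => prop_of_proper' (hI ▸ hep p hp τ) (μp p τ)
      (fun i h0 => by
      by_contra h1
      apply h0
      simp only [hμp]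
      exact if_neg h1) R i hi b0 o ho v hv hv')
    (fun τ a' b0 hlt v hv => hkill (μp p τ) a' b0 hlt v hv)
    (fun τ a' => by
      rw [hYm _ τ (jp p)]
      exact hAp p (jp p) _ (hxτ _ τ) (hXc _ τ (jp p)) (μp p τ)
        (fun i => hle _ _ _ _ _) a' _ (hbs1 (μp p τ) a'))
    (δp p) (Asp p) (hδp p) (hμδp p)
  have h1 := hC E hE Y hY (fun u hu τ => by
      have h2 := hxZ (∑ k, u k • P k) (Finset.mem_insert_of_mem
        (Finset.mem_image_of_mem _ hu)) τ
      intro h4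
      apply h2
      rw [map_sum, ← h4]
      refine Finset.sum_congr rfl fun i _ => ?_
      have h5 := congrFun (hYm (AlgebraicClosure ℚ) τ (RingHom.id _)) i
      rw [MvPolynomial.map_id] at h5
      rw [MvPolynomial.smul_eq_C_mul, map_mul, eval_C, ← h5])
    _ hMi (fun p σ => ∑ i, ∑ u, δp p i u * (((θ i u : ℕ) : ℝ) * cntA σ (Asp p i u) -
      ((TF N (FL I P (g i)) (θ i u) : ℕ) : ℝ)) - Kp p)
    (fun p hp => hMp p hp)
  have h2 := hsumi Ki
  have h3 : ∀ p ∈ S, _ := fun p _ => hsump p (Kp p)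
  have h4 := Finset.sum_le_sum h3
  rw [Finset.sum_sub_distrib, ← Finset.mul_sum, ← Finset.mul_sum, ← Finset.mul_sum,
    ← Finset.mul_sum, ← Finset.mul_sum] at h4
  set A1 := ∑ i, LstG (pfl K (D i) (N + 1)) r (fun τ => μi τ i) with hA1
  set A2 := ∑ p ∈ S, ∑ i, LstG (pfl K (D i) (N + 1)) r (fun τ => μp p τ i) with hA2
  set LH := Height.logHeight (fun i => (Y i : E)) with hLH
  have hden : 0 < (r : ℝ) ^ N * ((N : ℝ) + 1) * r := by positivity
  have h8 : (r : ℝ) ^ N * ((N : ℝ) + 1) * r * (A1 + A2) ≤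
      (r : ℝ) ^ N * ((N : ℝ) + 1) * r * ((1 + ε) * (LH / r)) +
        (Cc + (r : ℝ) ^ (N + 1) * (Ki + ∑ p ∈ S, Kp p)) := by
    have h9 : (r : ℝ) ^ N * ((N : ℝ) + 1 + ε * ((N : ℝ) + 1)) * LH =
        (r : ℝ) ^ N * ((N : ℝ) + 1) * r * ((1 + ε) * (LH / r)) := by
      field_simp
    rw [h9] at h1
    have h10 : (r : ℝ) ^ N * ((N : ℝ) + 1) * r * (A1 + A2) =
        (r : ℝ) ^ N * (((N : ℝ) + 1) * (1 * (r * A1))) +
          (r : ℝ) ^ N * (((N : ℝ) + 1) * (1 * (r * A2))) := by ring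
    rw [h10]
    linarith
  have h9 : (r : ℝ) ^ N * ((N : ℝ) + 1) * r * ((1 + ε) * (LH / r)) +
        (Cc + (r : ℝ) ^ (N + 1) * (Ki + ∑ p ∈ S, Kp p)) =
      (r : ℝ) ^ N * ((N : ℝ) + 1) * r * ((1 + ε) * (LH / r) +
        (Cc + (r : ℝ) ^ (N + 1) * (Ki + ∑ p ∈ S, Kp p)) /
          ((r : ℝ) ^ N * ((N : ℝ) + 1) * r)) := by
    rw [mul_add ((r : ℝ) ^ N * ((N : ℝ) + 1) * r) ((1 + ε) * (LH / r)) _,
      mul_div_cancel₀ _ hden.ne']
  rw [h9] at h8
  exact le_of_mul_le_mul_left h8 hden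

end Pool.Agent.T9h24.Fv
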