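import Mathlib
import Pool.Agent.T9h24.Fu.Spec

/-!
FV: hyperplanes in general position intersect properly.
-/

set_option autoImplicit false

open Finset MvPolynomial Module

namespace Pool.Agent.T9h24.Fv

open Pool.Agent.T9h24 Pool.Agent.T9h24.Ft Pool.Agent.T9h24.Fu

variable {K : Type} [Field K] {n q : ℕ}

/-- the linear form with the coefficients `w` -/
noncomputable def lin : (Fin (n + 1) → K) →ₗ[K] MvPolynomial (Fin (n + 1)) K :=
  Fintype.linearCombination K X

theorem lin_apply (w : Fin (n + 1) → K) : lin w = ∑ k, w k • X k :=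
  Fintype.linearCombination_apply _ _ _

theorem lin_single (k : Fin (n + 1)) : lin (Pi.single k (1 : K)) = X k := by
  rw [lin_apply, Finset.sum_eq_single k]
  · rw [Pi.single_eq_same, one_smul]
  · intro j _ hj
    rw [Pi.single_eq_of_ne hj, zero_smul]
  · intro h
    exact absurd (Finset.mem_univ k) h

theorem lin_inj : Function.Injective (lin : (Fin (n + 1) → K) →ₗ[K] _) := by
  rw [← LinearMap.ker_eq_bot, LinearMap.ker_eq_bot']
  intro w hw
  funext k
  have h1 := congrArg (coeff (Finsupp.single k 1)) hw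
  rw [lin_apply, coeff_sum, Finset.sum_eq_single k, coeff_smul, coeff_X, if_pos rfl,
    smul_eq_mul, mul_one, coeff_zero] at h1
  · exact h1
  · intro j _ hj
    rw [coeff_smul, coeff_X, if_neg, smul_zero]
    intro h3
    exact hj ((Finsupp.single_left_injective (one_ne_zero)) h3)
  · intro h
    exact absurd (Finset.mem_univ k) h

/-- the ideal generated by the linear forms with coefficients in `U` is prime, and the linear forms
in it have coefficients in `U` -/
theorem lin_ideal (U : Submodule K (Fin (n + 1) → K)) (J : Ideal (MvPolynomial (Fin (n + 1)) K))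
    (hJ : J = Ideal.span (lin '' (U : Set (Fin (n + 1) → K)))) :
    J.IsPrime ∧ ∀ w, lin w ∈ J → w ∈ U := by
  obtain ⟨s, hs⟩ := LinearMap.exists_rightInverse_of_surjective U.mkQ
    (LinearMap.range_eq_top.2 U.mkQ_surjective)
  set p : (Fin (n + 1) → K) →ₗ[K] (Fin (n + 1) → K) := s ∘ₗ U.mkQ with hp
  have hs' : ∀ z, U.mkQ (s z) = z := fun z => by
    have := LinearMap.congr_fun hs z
    simpa using this
  have hpU : ∀ w ∈ U, p w = 0 := by
    intro w hw
    rw [hp, LinearMap.comp_apply, Submodule.mkQ_apply, (Submodule.Quotient.mk_eq_zero U).2 hw,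
      map_zero]
  have hker : ∀ w, p w = 0 → w ∈ U := by
    intro w hw
    have h1 := congrArg U.mkQ hw
    rw [hp, LinearMap.comp_apply, hs', map_zero, Submodule.mkQ_apply,
      Submodule.Quotient.mk_eq_zero] at h1
    exact h1
  have hsub : ∀ w, w - p w ∈ U := by
    intro w
    rw [← Submodule.Quotient.mk_eq_zero, ← Submodule.mkQ_apply, map_sub, hp,
      LinearMap.comp_apply, hs', sub_self]
  set φ : MvPolynomial (Fin (n + 1)) K →ₐ[K] MvPolynomial (Fin (n + 1)) K :=
    aeval (fun k => lin (p (Pi.single k 1))) with hφ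
  have hφl : ∀ w, φ (lin w) = lin (p w) := by
    have h1 : φ.toLinearMap ∘ₗ lin = lin ∘ₗ p := by
      refine LinearMap.pi_ext' fun k => ?_
      ext1
      simp only [LinearMap.comp_apply, LinearMap.single_apply, AlgHom.toLinearMap_apply]
      rw [lin_single, hφ, aeval_X]
    exact fun w => LinearMap.congr_fun h1 w
  have hle : J ≤ RingHom.ker φ := by
    rw [hJ, Ideal.span_le]
    rintro _ ⟨w, hw, rfl⟩
    show φ (lin w) = 0
    rw [hφl, hpU w hw, map_zero]
  have hcongr : ∀ P : MvPolynomial (Fin (n + 1)) K, P - φ P ∈ J := by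
    intro P
    have h1 : (Ideal.Quotient.mkₐ K J) = (Ideal.Quotient.mkₐ K J).comp φ := by
      refine MvPolynomial.algHom_ext fun k => ?_
      rw [AlgHom.comp_apply, hφ, aeval_X, Ideal.Quotient.mkₐ_eq_mk, Ideal.Quotient.eq]
      rw [← lin_single (K := K) k, ← map_sub, hJ]
      exact Ideal.subset_span ⟨_, hsub _, rfl⟩
    have h2 := AlgHom.congr_fun h1 P
    rw [AlgHom.comp_apply, Ideal.Quotient.mkₐ_eq_mk, Ideal.Quotient.eq] at h2
    exact h2
  have heq : J = RingHom.ker φ := by
    refine le_antisymm hle fun P hP => ?_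
    have h1 := hcongr P
    have h2 : φ P = 0 := hP
    rwa [h2, sub_zero] at h1
  refine ⟨?_, fun w hw => ?_⟩
  · rw [heq]
    exact RingHom.ker_isPrime _
  · have h1 : φ (lin w) = 0 := hle hw
    rw [hφl] at h1
    exact hker w (lin_inj (by rw [h1, map_zero]))

/-- the ideal generated by finitely many linear forms -/
theorem span_lin (w : Fin q → Fin (n + 1) → K) (B : Finset (Fin q)) :
    Ideal.span ((fun i => lin (w i)) '' (B : Set (Fin q))) =
      Ideal.span (lin '' (Submodule.span K (w '' (B : Set (Fin q))) :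
        Set (Fin (n + 1) → K))) := by
  refine le_antisymm (Ideal.span_mono ?_) (Ideal.span_le.2 ?_)
  · rintro _ ⟨i, hi, rfl⟩
    exact ⟨w i, Submodule.subset_span ⟨i, hi, rfl⟩, rfl⟩
  · rintro _ ⟨v, hv, rfl⟩
    refine Submodule.span_induction (p := fun v _ => lin v ∈
      Ideal.span ((fun i => lin (w i)) '' (B : Set (Fin q)))) ?_ ?_ ?_ ?_ hv
    · rintro _ ⟨i, hi, rfl⟩
      exact Ideal.subset_span ⟨i, hi, rfl⟩
    · rw [map_zero]
      exact Ideal.zero_mem _
    · intro x y _ _ hx hy
      rw [map_add]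
      exact Ideal.add_mem _ hx hy
    · intro a x _ hx
      rw [map_smul, MvPolynomial.smul_eq_C_mul]
      exact Ideal.mul_mem_left _ _ hx

/-- hyperplanes in general position are regular modulo each other -/
theorem genPos (w : Fin q → Fin (n + 1) → K) (A : Finset (Fin q))
    (hA : ∀ B ⊆ A, B.card ≤ n + 1 → LinearIndepOn K w (B : Set (Fin q))) (i : Fin q)
    (hi : i ∈ A) (B : Finset (Fin q)) (hB : B ⊆ A) (hiB : i ∉ B)
    (P : MvPolynomial (Fin (n + 1)) K)
    (hP : lin (w i) * P ∈ sat (Ideal.span ((fun i => lin (w i)) '' (B : Set (Fin q))))) :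
    P ∈ sat (Ideal.span ((fun i => lin (w i)) '' (B : Set (Fin q)))) := by
  classical
  set J := Ideal.span ((fun i => lin (w i)) '' (B : Set (Fin q))) with hJ
  set U := Submodule.span K (w '' (B : Set (Fin q))) with hU
  have hJU : J = Ideal.span (lin '' (U : Set (Fin (n + 1) → K))) := span_lin w B
  rcases le_or_gt (n + 1) B.card with h | h
  · obtain ⟨B', hB', hc⟩ := Finset.exists_subset_card_eq h
    have h1 := hA B' (hB'.trans hB) hc.le
    have h2 : U = ⊤ := by
      rw [eq_top_iff]
      have h3 : Submodule.span K (w '' (B' : Set (Fin q))) = ⊤ := by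
        have h4 : LinearIndependent K (fun i : B' => w i) := h1
        have h5 := h4.span_eq_top_of_card_eq_finrank' (by
          rw [Fintype.card_coe, hc, finrank_fin_fun])
        rw [← h5]
        congr 1
        ext v
        simp
      rw [← h3]
      exact Submodule.span_mono (Set.image_mono (by exact_mod_cast hB'))
    refine ⟨1, fun l => ?_⟩
    rw [pow_one, hJU, h2]
    refine Ideal.mul_mem_right _ _ (Ideal.subset_span ⟨Pi.single l 1, trivial, ?_⟩)
    exact lin_single l
  · obtain ⟨hprime, hlin⟩ := lin_ideal U J hJU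
    have h1 := hA (insert i B) (Finset.insert_subset hi hB) (by
      rw [Finset.card_insert_of_notMem hiB]
      omega)
    rw [Finset.coe_insert] at h1
    have h2 : w i ∉ U := ((linearIndepOn_insert (by exact_mod_cast hiB)).1 h1).2
    have h3 : lin (w i) ∉ J := fun h4 => h2 (hlin _ h4)
    obtain ⟨l, hl⟩ : ∃ l, (X l : MvPolynomial (Fin (n + 1)) K) ∉ J := by
      by_contra hcon
      push Not at hcon
      apply h3
      rw [lin_apply]
      refine Ideal.sum_mem _ fun k _ => ?_
      rw [MvPolynomial.smul_eq_C_mul]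
      exact Ideal.mul_mem_left _ _ (hcon k)
    obtain ⟨M, hM⟩ := hP
    have h4 := hM l
    rcases hprime.mem_or_mem h4 with h5 | h5
    · exact absurd (hprime.mem_of_pow_mem _ h5) hl
    · exact le_sat _ ((hprime.mem_or_mem h5).resolve_left h3)

end Pool.Agent.T9h24.Fv
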